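import Pool.Agent.Helper27.REC.StmtsT2
import Pool.Agent.Helper72.REC.ETL
import Pool.Agent.Helper39.REC.XDN

/-!
# Row DGO (part 15): potentially abelian families are sums of characters   [helper99]
-/

set_option autoImplicit false

open scoped Classical
open NumberField Polynomial

namespace REC

open Pool.Agent.Helper13.ZL (Pl q)
open MU

/-- commutation with the centralizer of `s` can be checked over the `l`-adic integers -/
lemma dgo_transfer {l : ℕ} [Fact l.Prime] {Ω : Type} [Field Ω] [CharZero Ω] (ϑ : ℤ_[l] →+* Ω)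
    {n : ℕ} (s b : Matrix (Fin n) (Fin n) ℤ_[l])
    (h : ∀ x : Matrix (Fin n) (Fin n) ℤ_[l], x * s = s * x → x * b = b * x)
    (x : Matrix (Fin n) (Fin n) Ω) (hx : x * s.map ϑ = s.map ϑ * x) :
    x * b.map ϑ = b.map ϑ * x := by
  obtain ⟨ϑ', hϑ'⟩ := xb_alg ϑ
  let _ : Algebra ℚ_[l] Ω := ϑ'.toAlgebra
  have hϑ : ∀ x : ℤ_[l], ϑ x = algebraMap ℚ_[l] Ω (x : ℚ_[l]) := fun x => (hϑ' x).symm
  have hinj : Function.Injective (algebraMap ℤ_[l] ℚ_[l]) := IsFractionRing.injective _ _
  have hinjM : Function.Injective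
      (fun M : Matrix (Fin n) (Fin n) ℤ_[l] => M.map (algebraMap ℤ_[l] ℚ_[l])) :=
    Matrix.map_injective hinj
  -- rational matrices
  have hQ : ∀ y : Matrix (Fin n) (Fin n) ℚ_[l],
      y * s.map (algebraMap ℤ_[l] ℚ_[l]) = s.map (algebraMap ℤ_[l] ℚ_[l]) * y →
      y * b.map (algebraMap ℤ_[l] ℚ_[l]) = b.map (algebraMap ℤ_[l] ℚ_[l]) * y := by
    intro y hy
    obtain ⟨a, ha⟩ := IsLocalization.exist_integer_multiples_of_finite
      (nonZeroDivisors ℤ_[l]) (fun p : Fin n × Fin n => y p.1 p.2)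
    choose z hz using ha
    set Z : Matrix (Fin n) (Fin n) ℤ_[l] := Matrix.of fun i j => z (i, j) with hZ
    have hZy : Z.map (algebraMap ℤ_[l] ℚ_[l]) = (algebraMap ℤ_[l] ℚ_[l] (a : ℤ_[l])) • y := by
      ext i j
      have h1 := hz (i, j)
      rw [Algebra.smul_def] at h1
      simpa [hZ] using h1
    have ha0 : algebraMap ℤ_[l] ℚ_[l] (a : ℤ_[l]) ≠ 0 := by
      intro h0
      exact nonZeroDivisors.ne_zero a.2 (hinj (by rw [h0, map_zero]))
    have h1 : Z * s = s * Z := by
      apply hinjM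
      change (Z * s).map (algebraMap ℤ_[l] ℚ_[l]) = (s * Z).map (algebraMap ℤ_[l] ℚ_[l])
      rw [Matrix.map_mul, Matrix.map_mul, hZy, Matrix.smul_mul, Matrix.mul_smul, hy]
    have h2 := congrArg (fun M : Matrix (Fin n) (Fin n) ℤ_[l] =>
      M.map (algebraMap ℤ_[l] ℚ_[l])) (h Z h1)
    change (Z * b).map (algebraMap ℤ_[l] ℚ_[l]) = (b * Z).map (algebraMap ℤ_[l] ℚ_[l]) at h2
    rw [Matrix.map_mul, Matrix.map_mul, hZy, Matrix.smul_mul, Matrix.mul_smul] at h2
    exact smul_right_injective _ ha0 h2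
  -- functionals
  have hf1 : ∀ (f : Module.Dual ℚ_[l] Ω) (x : Matrix (Fin n) (Fin n) Ω)
      (c : Matrix (Fin n) (Fin n) ℤ_[l]),
      (x * c.map ϑ).map f = x.map f * c.map (algebraMap ℤ_[l] ℚ_[l]) := by
    intro f x c
    ext i j
    simp only [Matrix.map_apply, Matrix.mul_apply, map_sum]
    refine Finset.sum_congr rfl fun k _ => ?_
    rw [hϑ, mul_comm, ← Algebra.smul_def, map_smul, smul_eq_mul, mul_comm]
    rfl
  have hf2 : ∀ (f : Module.Dual ℚ_[l] Ω) (x : Matrix (Fin n) (Fin n) Ω)
      (c : Matrix (Fin n) (Fin n) ℤ_[l]),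
      (c.map ϑ * x).map f = c.map (algebraMap ℤ_[l] ℚ_[l]) * x.map f := by
    intro f x c
    ext i j
    simp only [Matrix.map_apply, Matrix.mul_apply, map_sum]
    refine Finset.sum_congr rfl fun k _ => ?_
    rw [hϑ, ← Algebra.smul_def, map_smul, smul_eq_mul]
    rfl
  ext i j
  rw [← sub_eq_zero, ← Module.forall_dual_apply_eq_zero_iff ℚ_[l]]
  intro f
  rw [map_sub, sub_eq_zero]
  have h1 := hQ (x.map f) (by rw [← hf1, ← hf2, hx])
  rw [← hf1, ← hf2] at h1
  exact congrFun (congrFun h1 i) j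

/-- the roots of monic integral polynomials in valuation rings of algebraically closed fields -/
lemma dgo_roots {Ω : Type} [Field Ω] [IsAlgClosed Ω] (A : ValuationSubring Ω) (R : ℤ[X])
    (hR : R.Monic) : ∃ (k : ℕ) (lam : Fin k → A),
      R.map (Int.castRingHom A) = ∏ i, (Polynomial.X - C (lam i)) := by
  set P : Polynomial Ω := R.map (Int.castRingHom Ω) with hP
  have hPm : P.Monic := hR.map _
  have hsp : P.Splits := IsAlgClosed.splits P
  have h1 : P = (P.roots.map fun a => Polynomial.X - C a).prod := hsp.eq_prod_roots_of_monic hPm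
  have hint : ∀ a ∈ P.roots, ∃ b : A, (b : Ω) = a := by
    intro a ha
    have h2 : IsIntegral ℤ a := by
      refine ⟨R, hR, ?_⟩
      have h3 := (Polynomial.mem_roots hPm.ne_zero).mp ha
      rw [IsRoot.def, hP, eval_map] at h3
      exact h3
    have h3 : IsIntegral A a := h2.tower_top
    obtain ⟨y, hy⟩ := (IsIntegrallyClosed.isIntegral_iff (R := A) (K := Ω)).mp h3
    exact ⟨y, hy⟩
  set L : List Ω := P.roots.toList with hL
  have hLi : ∀ i : Fin L.length, ∃ b : A, (b : Ω) = L.get i := fun i =>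
    hint _ (Multiset.mem_toList.mp (List.get_mem L i))
  choose lam hlam using hLi
  refine ⟨L.length, lam, ?_⟩
  have hinj : Function.Injective (Polynomial.map A.subtype) :=
    Polynomial.map_injective _ Subtype.val_injective
  apply hinj
  rw [Polynomial.map_map, Polynomial.map_prod]
  have h4 : A.subtype.comp (Int.castRingHom A) = Int.castRingHom Ω := RingHom.ext_int _ _
  rw [h4, ← hP, h1]
  have h5 : (P.roots.map fun a => Polynomial.X - C a).prod = (L.map fun a => Polynomial.X - C a).prod := by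
    rw [hL, ← Multiset.prod_coe, ← Multiset.map_coe, Multiset.coe_toList]
  rw [h5]
  have h6 : (L.map fun a => Polynomial.X - C a) = List.ofFn (fun i : Fin L.length => Polynomial.X - C (L.get i)) := by
    conv_lhs => rw [← List.ofFn_get L]
    rw [List.map_ofFn]
    rfl
  rw [h6, List.prod_ofFn]
  refine Finset.prod_congr rfl fun i _ => ?_
  simp only [Polynomial.map_sub, Polynomial.map_X, Polynomial.map_C]
  rw [← hlam i]
  rfl

/-- polynomials in a matrix acting on eigenvectors -/
lemma dgo_eig {A : Type} [CommRing A] {n : ℕ} (S E : Matrix (Fin n) (Fin n) A) (a : A)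
    (h : S * E = a • E) (p : A[X]) : aeval S p * E = p.eval a • E := by
  induction p using Polynomial.induction_on' with
  | add f g hf hg => rw [map_add, Matrix.add_mul, hf, hg, eval_add, add_smul]
  | monomial k c =>
    rw [aeval_monomial, eval_monomial, Algebra.algebraMap_eq_smul_one, smul_one_mul,
      Matrix.smul_mul, mul_smul]
    congr 1
    induction k with
    | zero => simp
    | succ k ih => rw [pow_succ, Matrix.mul_assoc, h, Matrix.mul_smul, ih, smul_smul, pow_succ,
        mul_comm]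

/-- a basis of eigenvectors -/
lemma dgo_basis {A : Type} [CommRing A] [IsLocalRing A] {n k : ℕ} (S : Matrix (Fin n) (Fin n) A)
    (lam : Fin k → A) (hS : aeval S (∏ i, (Polynomial.X - C (lam i))) = 0)
    (hu : ∀ a, IsUnit (∏ b ∈ Finset.univ.erase a, (lam a - lam b))) :
    ∃ (w : Fin n → Fin n → A) (a : Fin n → Fin k),
      IsUnit (Matrix.of fun i x =>
        ((aeval S (∏ b ∈ Finset.univ.erase (a x), (Polynomial.X - C (lam b)))).mulVec (w x)) i).det ∧
      ∀ x, ∃ i, IsUnit
        (((aeval S (∏ b ∈ Finset.univ.erase (a x), (Polynomial.X - C (lam b)))).mulVec (w x)) i) := by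
  set κ := IsLocalRing.ResidueField A
  set π : A →+* κ := IsLocalRing.residue A with hπ
  have hloc : ∀ x : A, IsUnit (π x) ↔ IsUnit x := fun x => isUnit_map_iff π x
  have hmapE : ∀ p : A[X], (aeval S p).map π = aeval (S.map π) (p.map π) := by
    intro p
    have h1 := Polynomial.map_aeval_eq_aeval_map (R := A) (S := Matrix (Fin n) (Fin n) A) (T := κ)
      (U := Matrix (Fin n) (Fin n) κ) (φ := π) (ψ := π.mapMatrix) (by
        ext a i j
        simp [Matrix.algebraMap_matrix_apply]
        split_ifs <;> simp) p S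
    exact h1
  set lb : Fin k → κ := fun i => π (lam i) with hlb
  set Sb : Matrix (Fin n) (Fin n) κ := S.map π with hSb
  have hinj : Set.InjOn lb (Finset.univ : Finset (Fin k)) := by
    intro a _ b _ hab
    by_contra hne
    have h1 := (hu a).map π
    rw [map_prod] at h1
    have h2 : ∏ x ∈ Finset.univ.erase a, π (lam a - lam x) = 0 := by
      apply Finset.prod_eq_zero (Finset.mem_erase.mpr ⟨fun h => hne h.symm, Finset.mem_univ b⟩)
      rw [map_sub, sub_eq_zero]
      exact hab
    rw [h2] at h1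
    exact not_isUnit_zero h1
  set pb : Fin k → κ[X] := fun a => ∏ b ∈ Finset.univ.erase a, (Polynomial.X - C (lb b)) with hpb
  have hpmap : ∀ a, (∏ b ∈ Finset.univ.erase a, (Polynomial.X - C (lam b))).map π = pb a := by
    intro a
    rw [Polynomial.map_prod]
    simp [hpb, hlb]
  set s : Set (Fin n → κ) := {v | ∃ (a : Fin k) (w : Fin n → κ),
    v = (aeval Sb (pb a)).mulVec w} with hs
  have hspan : Submodule.span κ s = ⊤ := by
    rw [eq_top_iff]
    intro v _
    rcases (Finset.univ : Finset (Fin k)).eq_empty_or_nonempty with hk | hk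
    · -- no roots
      rw [hk, Finset.prod_empty, map_one] at hS
      have h1 : (1 : Matrix (Fin n) (Fin n) κ) = 0 := by
        have := congrArg (fun M : Matrix (Fin n) (Fin n) A => M.map π) hS
        simpa using this
      have h2 : v = 0 := by
        rw [← Matrix.one_mulVec v, h1, Matrix.zero_mulVec]
      rw [h2]
      exact Submodule.zero_mem _
    · have h1 := Lagrange.sum_basis hinj hk
      have h2 := congrArg (fun p : κ[X] => (aeval Sb p).mulVec v) h1
      simp only [map_sum, map_one, Matrix.one_mulVec] at h2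
      rw [← h2, Matrix.sum_mulVec]
      apply Submodule.sum_mem
      intro a _
      apply Submodule.subset_span
      have h3 : Lagrange.basis Finset.univ lb a =
          C (∏ b ∈ Finset.univ.erase a, (lb a - lb b)⁻¹) * pb a := by
        rw [Lagrange.basis]
        simp only [Lagrange.basisDivisor]
        rw [Finset.prod_mul_distrib, map_prod]
      rw [h3]
      refine ⟨a, (∏ b ∈ Finset.univ.erase a, (lb a - lb b)⁻¹) • v, ?_⟩
      rw [map_mul, aeval_C, Algebra.algebraMap_eq_smul_one, smul_one_mul, Matrix.smul_mulVec,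
        Matrix.mulVec_smul]
  obtain ⟨b, hbs, hbspan, hbli⟩ := exists_linearIndependent κ s
  rw [hspan] at hbspan
  let bas : Module.Basis b κ (Fin n → κ) := Module.Basis.mk hbli (by
    rw [Subtype.range_coe, hbspan])
  have : Fintype b := FiniteDimensional.fintypeBasisIndex bas
  have hcard : Fintype.card b = n := by
    rw [← Module.finrank_eq_card_basis bas, Module.finrank_fin_fun]
  let e : Fin n ≃ b := (Fintype.equivFinOfCardEq hcard).symm
  have hmem : ∀ x : Fin n, ∃ (a : Fin k) (w : Fin n → κ),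
      ((e x : b) : Fin n → κ) = (aeval Sb (pb a)).mulVec w := fun x => hbs (e x).2
  choose a wb hwb using hmem
  have hlift : ∀ (x i : Fin n), ∃ c : A, π c = wb x i := fun x i =>
    IsLocalRing.residue_surjective _
  choose w hw using hlift
  have hv : ∀ x i, π (((aeval S (∏ b ∈ Finset.univ.erase (a x), (Polynomial.X - C (lam b)))).mulVec
      (w x)) i) = ((e x : b) : Fin n → κ) i := by
    intro x i
    have h0 : (⇑π ∘ w x) = wb x := funext fun j => hw x j
    rw [hwb x, RingHom.map_mulVec, hmapE, hpmap, h0]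
  refine ⟨w, a, ?_, ?_⟩
  · rw [← hloc, RingHom.map_det]
    have h1 : (π.mapMatrix (Matrix.of fun i x =>
        ((aeval S (∏ b ∈ Finset.univ.erase (a x), (Polynomial.X - C (lam b)))).mulVec (w x)) i)) =
        Matrix.of fun i x => ((e x : b) : Fin n → κ) i := by
      ext i x
      exact hv x i
    rw [h1, ← Matrix.isUnit_iff_isUnit_det, ← Matrix.linearIndependent_cols_iff_isUnit]
    have h2 : LinearIndependent κ (fun x : Fin n => ((e x : b) : Fin n → κ)) :=
      hbli.comp e e.injective
    exact h2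
  · intro x
    by_contra hcon
    push Not at hcon
    have h1 : ((e x : b) : Fin n → κ) = 0 := by
      funext i
      rw [← hv x i]
      by_contra hne
      exact hcon i ((hloc _).mp (isUnit_iff_ne_zero.mpr hne))
    exact hbli.ne_zero (e x) h1

/-- eigenvectors of matrices which commute with the centralizer -/
lemma dgo_char {A : Type} [CommRing A] {n k : ℕ} (S B : Matrix (Fin n) (Fin n) A)
    (lam : Fin k → A) (hS : aeval S (∏ i, (Polynomial.X - C (lam i))) = 0)
    (hu : ∀ a, IsUnit (∏ b ∈ Finset.univ.erase a, (lam a - lam b)))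
    (hB : ∀ x : Matrix (Fin n) (Fin n) A, x * S = S * x → x * B = B * x) (a : Fin k)
    (w : Fin n → A) (hw : ∃ i, IsUnit
      (((aeval S (∏ b ∈ Finset.univ.erase a, (Polynomial.X - C (lam b)))).mulVec w) i)) :
    ∃ χ : A, B.mulVec ((aeval S (∏ b ∈ Finset.univ.erase a, (Polynomial.X - C (lam b)))).mulVec w) =
      χ • ((aeval S (∏ b ∈ Finset.univ.erase a, (Polynomial.X - C (lam b)))).mulVec w) := by
  set p : A[X] := ∏ b ∈ Finset.univ.erase a, (Polynomial.X - C (lam b)) with hp
  set E := aeval S p with hE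
  have hprod : ∏ i, (Polynomial.X - C (lam i)) = (Polynomial.X - C (lam a)) * p := by
    rw [hp]
    exact (Finset.mul_prod_erase Finset.univ (fun b => Polynomial.X - C (lam b))
      (Finset.mem_univ a)).symm
  have hSE : S * E = lam a • E := by
    rw [hprod, map_mul, map_sub, aeval_X, aeval_C, Matrix.sub_mul, sub_eq_zero] at hS
    rw [hS, Algebra.algebraMap_eq_smul_one, smul_one_mul]
  have hcommE : E * S = S * E := by
    have h1 : aeval S (p * Polynomial.X) = aeval S (Polynomial.X * p) := by rw [mul_comm]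
    rw [map_mul, map_mul, aeval_X] at h1
    exact h1
  have hES : E * S = lam a • E := by rw [hcommE, hSE]
  have hEE : E * E = p.eval (lam a) • E := dgo_eig S E (lam a) hSE p
  have hpe : p.eval (lam a) = ∏ b ∈ Finset.univ.erase a, (lam a - lam b) := by
    rw [hp, eval_prod]
    simp
  have hup : IsUnit (p.eval (lam a)) := hpe ▸ hu a
  obtain ⟨i, hi⟩ := hw
  set v := E.mulVec w with hv
  set x : Matrix (Fin n) (Fin n) A := E * Matrix.vecMulVec w (Pi.single i 1) * E with hx
  have hxS : x * S = S * x := by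
    rw [hx, Matrix.mul_assoc _ E S, hES, ← Matrix.mul_assoc S, ← Matrix.mul_assoc S, hSE,
      Matrix.mul_smul, Matrix.smul_mul, Matrix.smul_mul]
  have hxB := hB x hxS
  have hxv : ∀ y : Fin n → A, x.mulVec y = (E.mulVec y) i • v := by
    intro y
    rw [hx, ← Matrix.mulVec_mulVec, ← Matrix.mulVec_mulVec, Matrix.vecMulVec_mulVec]
    rw [single_one_dotProduct, op_smul_eq_smul, Matrix.mulVec_smul]
  have h1 : x.mulVec (B.mulVec v) = B.mulVec (x.mulVec v) :=
    (Matrix.mulVec_mulVec v x B).trans ((congrArg (fun M : Matrix (Fin n) (Fin n) A =>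
      M.mulVec v) hxB).trans (Matrix.mulVec_mulVec v B x).symm)
  rw [hxv, hxv] at h1
  have hEv : E.mulVec v = p.eval (lam a) • v := by
    rw [hv, Matrix.mulVec_mulVec, hEE, Matrix.smul_mulVec]
  rw [hEv, Matrix.mulVec_smul] at h1
  have hun : IsUnit ((p.eval (lam a) • v) i) := by
    rw [Pi.smul_apply, smul_eq_mul]
    exact hup.mul hi
  obtain ⟨c, hc⟩ := hun.exists_left_inv
  refine ⟨c * (E.mulVec (B.mulVec v)) i, ?_⟩
  rw [mul_smul, h1, smul_smul, hc, one_smul]

theorem DGO (hPBR : ST_PBR) : ST_DGO := by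
  intro F _ _ S n B hfam hss H hH hcomm
  obtain ⟨U, s, R, c, -, hUo, -, -, hRm, hRs, hl⟩ := hPBR F S n (fun l _ => B l) hfam hss H hH hcomm
  obtain ⟨d, f, g, hd, hfg⟩ := Pool.Agent.Helper72.REC.Etl.bezout R hRs
  refine ⟨U, hUo, fun K _ _ r hr => ⟨max c d.natAbs, fun l _ hcl Ω _ _ _ A ϑ hres => ?_⟩⟩
  obtain ⟨hs0, hcen⟩ := hl l (lt_of_le_of_lt (le_max_left _ _) hcl)
  have hdl : d.natAbs < l := lt_of_le_of_lt (le_max_right _ _) hcl
  -- the discriminant is a unit
  have hdu : IsUnit (d : A) := by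
    rw [← isUnit_map_iff (IsLocalRing.residue A), isUnit_iff_ne_zero, map_intCast]
    intro h0
    have hcop : IsCoprime d (l : ℤ) := by
      rw [Int.isCoprime_iff_gcd_eq_one, Int.gcd_comm]
      change Nat.gcd (l : ℤ).natAbs d.natAbs = 1
      rw [Int.natAbs_natCast]
      exact ((Nat.Prime.coprime_iff_not_dvd (Fact.out : l.Prime)).mpr fun hdvd =>
        absurd (Nat.le_of_dvd (Int.natAbs_pos.mpr hd) hdvd) (not_le.mpr hdl))
    obtain ⟨a, b, hab⟩ := hcop
    have h1 : ((a * d + b * (l : ℤ) : ℤ) : IsLocalRing.ResidueField A) = 1 := by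
      rw [hab]
      simp
    push_cast at h1
    rw [h0, hres, mul_zero, mul_zero, add_zero] at h1
    exact zero_ne_one h1
  obtain ⟨k, lam, hlam⟩ := dgo_roots A R hRm
  have hu : ∀ a, IsUnit (∏ b ∈ Finset.univ.erase a, (lam a - lam b)) := by
    intro a
    have hprod : R.map (Int.castRingHom A) = (Polynomial.X - C (lam a)) *
        ∏ b ∈ Finset.univ.erase a, (Polynomial.X - C (lam b)) := by
      rw [hlam]
      exact (Finset.mul_prod_erase Finset.univ (fun b => Polynomial.X - C (lam b))
        (Finset.mem_univ a)).symm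
    have h1 := congrArg (fun P : ℤ[X] => (P.map (Int.castRingHom A)).eval (lam a)) hfg
    simp only [Polynomial.map_add, Polynomial.map_mul, Polynomial.map_C, eval_add, eval_mul,
      eval_C, ← derivative_map] at h1
    rw [hprod, derivative_mul] at h1
    simp only [eval_add, eval_mul, derivative_sub, derivative_X, derivative_C, sub_zero, eval_sub,
      eval_X, eval_C, sub_self, zero_mul, mul_zero, zero_add, add_zero, one_mul, eval_prod] at h1
    have h2 : IsUnit ((Int.castRingHom A) d) := by simpa using hdu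
    rw [← h1] at h2
    exact isUnit_of_mul_isUnit_right h2
  set Sm : Matrix (Fin n) (Fin n) A := (B l s : Matrix (Fin n) (Fin n) ℤ_[l]).map ϑ with hSm
  have hS : aeval Sm (∏ i, (Polynomial.X - C (lam i))) = 0 := by
    rw [← hlam, ← algebraMap_int_eq, Polynomial.aeval_map_algebraMap]
    have h1 := Pool.Agent.Helper72.REC.Etl.aeval_mapM ϑ R
      (B l s : Matrix (Fin n) (Fin n) ℤ_[l])
    rw [← hSm] at h1
    rw [← h1, hs0]
    ext i j
    simp
  -- commutation over `A`
  have hcA : ∀ g ∈ U, ∀ x : Matrix (Fin n) (Fin n) A, x * Sm = Sm * x →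
      x * (B l g : Matrix (Fin n) (Fin n) ℤ_[l]).map ϑ =
        (B l g : Matrix (Fin n) (Fin n) ℤ_[l]).map ϑ * x := by
    intro g hg x hx
    have hmm : ∀ M : Matrix (Fin n) (Fin n) ℤ_[l],
        (M.map ϑ).map A.subtype = M.map (A.subtype.comp ϑ) := by
      intro M
      ext i j
      rfl
    have h1 := dgo_transfer (A.subtype.comp ϑ) (B l s : Matrix (Fin n) (Fin n) ℤ_[l])
      (B l g : Matrix (Fin n) (Fin n) ℤ_[l]) (fun y hy => hcen y hy g hg) (x.map A.subtype) (by
        rw [← hmm, ← Matrix.map_mul, ← hSm, hx, Matrix.map_mul])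
    apply Matrix.map_injective (f := A.subtype) Subtype.val_injective
    change (x * (B l g : Matrix (Fin n) (Fin n) ℤ_[l]).map ϑ).map A.subtype =
      ((B l g : Matrix (Fin n) (Fin n) ℤ_[l]).map ϑ * x).map A.subtype
    rw [Matrix.map_mul, Matrix.map_mul, hmm, h1]
  obtain ⟨w, a, hdet, hun⟩ := dgo_basis Sm lam hS hu
  set v : Fin n → Fin n → A := fun x =>
    (aeval Sm (∏ b ∈ Finset.univ.erase (a x), (Polynomial.X - C (lam b)))).mulVec (w x) with hv
  set Cm : Matrix (Fin n) (Fin n) A := Matrix.of fun i x => v x i with hCm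
  have hdet' : IsUnit Cm.det := hdet
  have hchi : ∀ (g : Gal K) (x : Fin n), ∃ χ : A,
      ((B l (r g) : Matrix (Fin n) (Fin n) ℤ_[l]).map ϑ).mulVec (v x) = χ • v x := by
    intro g x
    exact dgo_char Sm _ lam hS hu (hcA (r g) (hr ⟨g, rfl⟩)) (a x) (w x) (hun x)
  choose χ hχ using hchi
  have hBC : ∀ g : Gal K, (B l (r g) : Matrix (Fin n) (Fin n) ℤ_[l]).map ϑ * Cm =
      Cm * Matrix.diagonal (χ g) := by
    intro g
    ext i x
    rw [Matrix.mul_diagonal]
    have h1 := congrFun (hχ g x) i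
    rw [Pi.smul_apply, smul_eq_mul, mul_comm] at h1
    rw [hCm, Matrix.of_apply, ← h1]
    rfl
  have hCC : Cm * Cm⁻¹ = 1 := Matrix.mul_nonsing_inv _ hdet'
  have hCC' : Cm⁻¹ * Cm = 1 := Matrix.nonsing_inv_mul _ hdet'
  have hD : ∀ g : Gal K, Cm⁻¹ * (B l (r g) : Matrix (Fin n) (Fin n) ℤ_[l]).map ϑ * Cm =
      Matrix.diagonal (χ g) := by
    intro g
    rw [Matrix.mul_assoc, hBC, ← Matrix.mul_assoc, hCC', Matrix.one_mul]
  have hD1 : χ 1 = 1 := by
    apply Matrix.diagonal_injective
    rw [← hD 1, map_one, map_one]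
    have h1 : (((1 : Matrix.GeneralLinearGroup (Fin n) ℤ_[l]) :
        Matrix (Fin n) (Fin n) ℤ_[l])).map ϑ = 1 := by
      rw [Units.val_one, Matrix.map_one _ (map_zero _) (map_one _)]
    rw [h1, Matrix.mul_one, hCC']
    exact Matrix.diagonal_one.symm
  have hDm : ∀ g g' : Gal K, χ (g * g') = χ g * χ g' := by
    intro g g'
    apply Matrix.diagonal_injective
    have h1 : ((B l (r (g * g')) : Matrix.GeneralLinearGroup (Fin n) ℤ_[l]) :
        Matrix (Fin n) (Fin n) ℤ_[l]).map ϑ =
        (B l (r g) : Matrix (Fin n) (Fin n) ℤ_[l]).map ϑ *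
          (B l (r g') : Matrix (Fin n) (Fin n) ℤ_[l]).map ϑ := by
      rw [map_mul, map_mul, Units.val_mul, Matrix.map_mul]
    rw [← hD (g * g'), h1, Matrix.mul_assoc, Matrix.mul_assoc, hBC, ← Matrix.mul_assoc _ Cm, hBC,
      Matrix.mul_assoc, ← Matrix.mul_assoc, hCC', Matrix.one_mul, Matrix.diagonal_mul_diagonal]
    rfl
  refine ⟨Cm, Cm⁻¹, fun x => ⟨⟨fun g => χ g x, congrFun hD1 x⟩, fun g g' =>
    congrFun (hDm g g') x⟩, hCC, hCC', fun g => ?_⟩
  exact hD g

end REC
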