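import Pool.Agent.Helper27.REC.StmtsT

/-!
# Row SMI (part 15): equivariance for the group of similitudes up to factors   [helper99]
-/

set_option autoImplicit false

open scoped Classical
open NumberField Polynomial

namespace REC

open MU

/-- the scalar: `a ^ m = det x` and (if there is a form) `a ^ 2 = q` -/
lemma smi_scal {K : Type} [Field K] [IsAlgClosed K] [CharZero K] {n : ℕ}
    (J : Matrix (Fin n) (Fin n) ℤ) (hJ : 0 < n ∧ (J = 0 ∨ (J * J.transpose = 1 ∧
      (J.transpose = J ∨ J.transpose = -J)))) (x y : Matrix (Fin n) (Fin n) K) (q : K)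
    (hxy : x * y = 1)
    (hx : x.transpose * J.map (Int.castRingHom K) * x = q • J.map (Int.castRingHom K))
    (hd : J ≠ 0 → ∀ r : ℕ, n = 2 * r → x.det = q ^ r) :
    ∃ a : K, a ≠ 0 ∧ (J = 0 → a ^ n = x.det) ∧ (J ≠ 0 → a ^ 2 = q) ∧ a ^ n = x.det := by
  have hdx : x.det ≠ 0 := by
    intro h
    have := congrArg Matrix.det hxy
    rw [Matrix.det_mul, h, zero_mul, Matrix.det_one] at this
    exact zero_ne_one this
  obtain ⟨hn, hJ'⟩ := hJ
  by_cases h0 : J = 0
  · obtain ⟨a, ha⟩ := IsAlgClosed.exists_pow_nat_eq x.det hn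
    refine ⟨a, ?_, fun _ => ha, fun h => absurd h0 h, ha⟩
    rintro rfl
    rw [zero_pow hn.ne'] at ha
    exact hdx ha.symm
  · rcases hJ' with h | ⟨hJJ, -⟩
    · exact absurd h h0
    · have hdJ : (J.map (Int.castRingHom K)).det ≠ 0 := by
        have h1 : (J.map (Int.castRingHom K)) * (J.map (Int.castRingHom K)).transpose = 1 := by
          rw [← Matrix.transpose_map, ← Matrix.map_mul, hJJ]
          simp
        intro h
        have := congrArg Matrix.det h1
        rw [Matrix.det_mul, h, zero_mul, Matrix.det_one] at this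
        exact zero_ne_one this
      have hq2 : x.det ^ 2 = q ^ n := by
        have h1 := congrArg Matrix.det hx
        rw [Matrix.det_mul, Matrix.det_mul, Matrix.det_transpose, Matrix.det_smul,
          Fintype.card_fin] at h1
        apply mul_right_cancel₀ hdJ
        rw [← h1]
        ring
      obtain ⟨b, hb⟩ := IsAlgClosed.exists_pow_nat_eq q (n := 2) (by norm_num)
      have hq0 : q ≠ 0 := by
        rintro rfl
        rw [zero_pow hn.ne'] at hq2
        exact hdx (by simpa using hq2)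
      have hb0 : b ≠ 0 := by
        rintro rfl
        apply hq0
        rw [← hb]
        norm_num
      rcases Nat.even_or_odd' n with ⟨r, hr | hr⟩
      · refine ⟨b, hb0, fun h => absurd h h0, fun _ => hb, ?_⟩
        rw [hd h0 r hr, ← hb, ← pow_mul, hr]
      · have h2 : x.det ^ 2 = (b ^ n) ^ 2 := by
          rw [hq2, ← hb, ← pow_mul, ← pow_mul, mul_comm]
        rcases sq_eq_sq_iff_eq_or_eq_neg.mp h2 with h | h
        · exact ⟨b, hb0, fun h => absurd h h0, fun _ => hb, h.symm⟩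
        · refine ⟨-b, neg_ne_zero.mpr hb0, fun h => absurd h h0, fun _ => by rw [neg_sq, hb], ?_⟩
          rw [h, Odd.neg_pow ⟨r, hr⟩]

theorem SMI (hTMB : ST_TMB) (hGNR : ST_GNR) : ST_SMI := by
  intro K _ _ _ t m J hJok x y q hxy
  have hex : ∀ i, ∃ a : K, a ≠ 0 ∧ (J i = 0 → a ^ m i = (x i).det) ∧ (J i ≠ 0 → a ^ 2 = q i) ∧
      a ^ m i = (x i).det := fun i =>
    smi_scal (J i) (hJok i) (x i) (y i) (q i) (hxy i).1 (hxy i).2.1 (hxy i).2.2
  choose a ha0 ha1 ha2 ha3 using hex
  refine ⟨a, fun i => ⟨ha0 i, ha1 i, ha2 i⟩, ?_⟩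
  intro c₁ c₁' c₂ c₂' u hu
  -- the normalised matrices
  set x' : MM m K := fun i => (a i)⁻¹ • x i with hx'
  set y' : MM m K := fun i => a i • y i with hy'
  have hG := hGNR K t m J hJok c₁ c₁' c₂ c₂' u hu x' y' (by
    intro i
    refine ⟨?_, ?_, ?_⟩
    · simp only [hx', hy', Matrix.smul_mul, Matrix.mul_smul, smul_smul, (hxy i).1]
      rw [mul_inv_cancel₀ (ha0 i), one_smul]
    · simp only [hx', Matrix.det_smul, Fintype.card_fin]
      rw [← ha3 i, inv_pow, inv_mul_cancel₀ (pow_ne_zero _ (ha0 i))]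
    · simp only [hx', Matrix.transpose_smul, Matrix.smul_mul, Matrix.mul_smul, smul_smul]
      rw [(hxy i).2.1, smul_smul]
      by_cases h0 : J i = 0
      · simp [jm, h0]
      · rw [← ha2 i h0]
        have : (a i)⁻¹ * (a i)⁻¹ * a i ^ 2 = 1 := by
          field_simp [ha0 i]
        rw [this, one_smul])
  have hxx : x = fun i => a i • x' i := by
    funext i
    simp only [hx', smul_smul]
    rw [mul_inv_cancel₀ (ha0 i), one_smul]
  have hyy : y = fun i => (a i)⁻¹ • y' i := by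
    funext i
    simp only [hy', smul_smul]
    rw [inv_mul_cancel₀ (ha0 i), one_smul]
  have h1 : tmy c₁ c₁' x y = (∏ i, a i ^ c₁ i * (a i)⁻¹ ^ c₁' i) • tmy c₁ c₁' x' y' := by
    conv_lhs => rw [hxx, hyy]
    exact (hTMB K t m c₁ c₁').2.2.2.2.1 a (fun i => (a i)⁻¹) x' y'
  have h2 : tmy c₂ c₂' x y = (∏ i, a i ^ c₂ i * (a i)⁻¹ ^ c₂' i) • tmy c₂ c₂' x' y' := by
    conv_lhs => rw [hxx, hyy]
    exact (hTMB K t m c₂ c₂').2.2.2.2.1 a (fun i => (a i)⁻¹) x' y'
  rw [h1, h2, Matrix.mul_smul, Matrix.smul_mul, smul_smul, ← hG, ← Finset.prod_mul_distrib]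
  congr 1
  apply Finset.prod_congr rfl
  intro i _
  unfold dg
  rw [zpow_add₀ (ha0 i), zpow_sub₀ (ha0 i), zpow_sub₀ (ha0 i)]
  simp only [zpow_natCast, inv_pow]
  have := pow_ne_zero (c₁' i) (ha0 i)
  have := pow_ne_zero (c₂ i) (ha0 i)
  have := pow_ne_zero (c₂' i) (ha0 i)
  field_simp

end REC
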